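import Pool.Agent.U619.GL.Main

/-!
# The smallest graceful tree containing a given tree: trees with few leaves and trees built from them

For every `k` there is `N` such that `γ(T) = |E(T)|` for all trees `T` which have at most `k` leaves and at
least `N` vertices, for all trees obtained from such a `T` by replacing every vertex by a copy of an arbitrary
graceful tree `S` and every edge `e` of `T` by an edge between the two copies of an arbitrary vertex `c e` of
`S`, and for all trees whose non-leaves form a tree with at most `k` leaves and at least `N` vertices, if every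
non-leaf has a positive even number of leaves and at least `k - 2` non-leaves of each colour have at least four
leaves. If the non-leaves form a tree with at most `k` leaves and at least `N` vertices, then
`γ(T) ≤ |E(T)| + o + 2 z + 2 (k - 2)` where `o` (`z`) is the number of the non-leaves with an odd number of
leaves (no leaves).

The theorem on trees with at most `k` leaves (they even have `α`-labellings) is
`Pool.Agent.Y790.TG.allTreeG` of the starting files, used there only for tree decompositions.
-/

set_option autoImplicit false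

namespace Pool.Agent.Results.MP_128071_co.FewLeaves

/-- A graph with `m` edges is graceful if there is an injective map `f` of the vertices to
`{0, 1, …, m}` such that the edge labels `|f u - f v|` are pairwise distinct. -/
def Graceful {V : Type} (T : SimpleGraph V) : Prop :=
  ∃ f : V → ℕ, Function.Injective f ∧ (∀ v, f v ≤ T.edgeSet.ncard) ∧
    ∀ u v u' v', T.Adj u v → T.Adj u' v' →
      Int.natAbs ((f u : ℤ) - (f v : ℤ)) = Int.natAbs ((f u' : ℤ) - (f v' : ℤ)) →
      s(u, v) = s(u', v')

/-- The numbers of edges of the finite graceful trees which have a subgraph isomorphic to `T`. -/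
def gracefulSizes {V : Type} (T : SimpleGraph V) : Set ℕ :=
  {k | ∃ (W : Type) (_ : Fintype W) (T' : SimpleGraph W),
    T'.IsTree ∧ Graceful T' ∧ T.IsContained T' ∧ T'.edgeSet.ncard = k}

/-- `γ(T)`: the least number of edges of a graceful tree which has a subgraph isomorphic to `T`. -/
noncomputable def gamma {V : Type} (T : SimpleGraph V) : ℕ := sInf (gracefulSizes T)

/-- `T` is graceful, and so it is a smallest graceful tree containing `T`. -/
def Settled {V : Type} (T : SimpleGraph V) : Prop := Graceful T ∧ gamma T = T.edgeSet.ncard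

/-- the number of leaves (vertices with exactly one neighbour) -/
noncomputable def leafNumber {V : Type} (T : SimpleGraph V) : ℕ :=
  {x : V | (T.neighborSet x).ncard = 1}.ncard

/-- the vertices with at least two neighbours -/
def nonLeaves {V : Type} (T : SimpleGraph V) : Set V := {x | 2 ≤ (T.neighborSet x).ncard}

/-- the tree of the non-leaves -/
def core {V : Type} (T : SimpleGraph V) : SimpleGraph (nonLeaves T) := T.induce (nonLeaves T)

/-- the number of the leaves adjacent to `x` -/
noncomputable def leavesAt {V : Type} (T : SimpleGraph V) (x : V) : ℕ :=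
  {y | T.Adj x y ∧ y ∉ nonLeaves T}.ncard

/-- Every vertex of `T` is replaced by a copy of `S` and every edge `e` of `T` by the edge between the two
copies of the vertex `c e` of `S`. -/
def product {V W : Type} (T : SimpleGraph V) (S : SimpleGraph W) (c : Sym2 V → W) :
    SimpleGraph (V × W) where
  Adj a b := (a.1 = b.1 ∧ S.Adj a.2 b.2) ∨
    (T.Adj a.1 b.1 ∧ a.2 = c s(a.1, b.1) ∧ b.2 = c s(a.1, b.1))
  symm := (Pool.Agent.U619.GL.blow T S c).symm
  loopless := (Pool.Agent.U619.GL.blow T S c).loopless

/-- Every non-leaf is adjacent to a positive even number of leaves and, for both colours of the proper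
colourings of `T` with two colours, at least `k - 2` non-leaves of this colour are adjacent to at least four
leaves. -/
def EvenLeaves {V : Type} (T : SimpleGraph V) (k : ℕ) : Prop :=
  (∀ x ∈ nonLeaves T, 0 < leavesAt T x ∧ Even (leavesAt T x)) ∧
    ∀ c : V → Bool, (∀ u v, T.Adj u v → c u ≠ c v) → ∀ b : Bool,
      k ≤ {x | x ∈ nonLeaves T ∧ c x = b ∧ 4 ≤ leavesAt T x}.ncard + 2

theorem le_of_mem {V : Type} {T : SimpleGraph V} {k : ℕ}
    (hk : k ∈ gracefulSizes T) : T.edgeSet.ncard ≤ k := by
  classical
  obtain ⟨W, _, T', _, _, ⟨φ⟩, rfl⟩ := hk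
  have hinj : Function.Injective φ := φ.injective
  have h1 : Sym2.map φ '' T.edgeSet ⊆ T'.edgeSet := by
    rintro _ ⟨e, he, rfl⟩
    induction e using Sym2.ind with
    | _ x y =>
      rw [Sym2.map_mk, SimpleGraph.mem_edgeSet]
      exact φ.toHom.map_adj ((SimpleGraph.mem_edgeSet T).1 he)
  calc T.edgeSet.ncard = (Sym2.map φ '' T.edgeSet).ncard :=
        (Set.ncard_image_of_injective _ (Sym2.map.injective hinj)).symm
    _ ≤ T'.edgeSet.ncard := Set.ncard_le_ncard h1 (Set.toFinite _)

theorem settled {V : Type} [Fintype V] {T : SimpleGraph V} (hT : T.IsTree) (hg : Graceful T) :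
    Settled T := by
  have hm : T.edgeSet.ncard ∈ gracefulSizes T :=
    ⟨V, inferInstance, T, hT, hg, SimpleGraph.IsContained.refl T, rfl⟩
  exact ⟨hg, le_antisymm (Nat.sInf_le hm) (le_of_mem (Nat.sInf_mem ⟨_, hm⟩))⟩

/-- For every `k` there is `N` such that

1. for all trees `T` with at most `k` leaves and at least `N` vertices, and for all trees `T` whose non-leaves
   form a tree with at most `k` leaves and at least `N` vertices and which have the property `EvenLeaves`, we
   have `γ(T) = |E(T)|` (`T` is graceful), and also `γ(P) = |E(P)|` for all trees `P` that are obtained from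
   `T` by replacing the vertices by copies of an arbitrary graceful tree `S`;

2. for all trees `T` whose non-leaves form a tree with at most `k` leaves and at least `N` vertices
   `γ(T) ≤ |E(T)| + o + 2 z + 2 (k - 2)`, where `o` is the number of the non-leaves adjacent to an odd number
   of leaves and `z` the number of the non-leaves adjacent to no leaf. -/
theorem result (k : ℕ) : ∃ N : ℕ, ∀ (V : Type) [Fintype V] (T : SimpleGraph V), T.IsTree →
    ((leafNumber T ≤ k ∧ N ≤ Fintype.card V ∨
        leafNumber (core T) ≤ k ∧ N ≤ Nat.card (nonLeaves T) ∧ EvenLeaves T k) →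
      Settled T ∧ ∀ (W : Type) [Fintype W] (S : SimpleGraph W) (c : Sym2 V → W),
        S.IsTree → Graceful S → (product T S c).IsTree ∧ Settled (product T S c)) ∧
    (leafNumber (core T) ≤ k ∧ N ≤ Nat.card (nonLeaves T) →
      gamma T ≤ T.edgeSet.ncard + {x | x ∈ nonLeaves T ∧ Odd (leavesAt T x)}.ncard +
        2 * {x | x ∈ nonLeaves T ∧ leavesAt T x = 0}.ncard + 2 * (k - 2)) := by
  obtain ⟨N, hN⟩ := Pool.Agent.Y790.TG.allTreeG k
  refine ⟨max 2 N, fun V _ T hT => ⟨?_, ?_⟩⟩
  · intro h
    have hg : Graceful T := by
      rcases h with ⟨h1, h2⟩ | ⟨h1, h2, h3, h4⟩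
      · obtain ⟨θ, f, f1, f2, f3, _⟩ := Pool.Agent.U619.GL.alpha_of_alph
          (hN V T hT h1 (le_trans (le_max_right _ _) h2))
        exact ⟨f, f1, f2, f3⟩
      · have h5 : 2 ≤ Nat.card (Pool.Agent.H336.GW.inner T) := le_trans (le_max_left _ _) h2
        exact Pool.Agent.U619.GL.graceful_four hT
          (Pool.Agent.U619.GL.alph_core hN hT h5 h1 (le_trans (le_max_right _ _) h2)) h5 h1 h3 h4
    refine ⟨settled hT hg, fun W _ S c hS gS => ?_⟩
    obtain ⟨h1, h2⟩ := Pool.Agent.U619.GL.blow_graceful hT hS hg gS c
    exact ⟨h1, settled (T := product T S c) h1 h2⟩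
  · rintro ⟨h1, h2⟩
    have h5 : 2 ≤ Nat.card (Pool.Agent.H336.GW.inner T) := le_trans (le_max_left _ _) h2
    obtain ⟨κ, hκ, hg, hs⟩ := Pool.Agent.U619.GL.add_few hT
      (Pool.Agent.U619.GL.alph_core hN hT h5 h1 (le_trans (le_max_right _ _) h2)) h5 h1
    obtain ⟨t1, t2⟩ := Pool.Agent.U619.GL.add_tree hT κ
    have hm : (Pool.Agent.W322.GT.addLeaves T κ).edgeSet.ncard ∈ gracefulSizes T :=
      ⟨_, inferInstance, _, t1, hg, Pool.Agent.W322.GT.addLeaves_contains T κ, rfl⟩
    refine (Nat.sInf_le hm).trans ?_
    rw [t2, add_assoc, add_assoc]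
    refine Nat.add_le_add_left ?_ _
    rw [← add_assoc]
    exact hs

end Pool.Agent.Results.MP_128071_co.FewLeaves
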