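import Mathlib
import Pool.Agent.Results.MP_128071_co.AsymptoticGamma
import Pool.Agent.U54.GT.Count
import Pool.Agent.U54.GT.Broom
import Pool.Agent.U54.GT.Inst
import Pool.Agent.U54.GT.Lim
import Pool.Agent.U54.GT.Poly

/-!
# The smallest graceful tree containing a given tree: the number of trees with `γ(T) = |E(T)|`

Let `P` be a class of trees such that every tree of `P` has a vertex at which arbitrarily many pendant
edges and pendant paths of length two can be attached without leaving `P` (for example: all trees,
lobsters, trees of radius at most `r`, trees with at most one vertex of degree `> D`).  Let `t n` be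
the number of the trees of `P` with `n` edges up to isomorphism, and let `g n` be the number of those
with `γ(T) = |E(T)|`.  Then `t m ≤ (n + 1) * g n` for all `n ≥ (1 + ε) m + C`; in particular `g n` and
`t n` have the same exponential growth rate.

The proof combines the theorem on brooms of the starting files (`H115G.broom_T`, used for the bound
`γ(T) ≤ (1 + ε) |E(T)| + C` in `AsymptoticGamma`) with a cancellation law: a tree `T` is determined up
to isomorphism by `a`, `b` and the tree obtained from `T` by attaching `a` pendant edges and `b` pendant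
paths of length two at a vertex `v`, rooted at `v`.
-/

set_option autoImplicit false

namespace Pool.Agent.Results.MP_128071_co.GrowthRate

open Filter Topology Pool.Agent.Results.MP_128071_co.AsymptoticGamma Pool.Agent.U54.GT

/-- The graphs on the vertices `0, …, n` with the property `Q`, up to isomorphism. -/
def isoSetoid (n : ℕ) (Q : SimpleGraph (Fin (n + 1)) → Prop) :
    Setoid {G : SimpleGraph (Fin (n + 1)) // Q G} where
  r G H := Nonempty (G.1 ≃g H.1)
  iseqv := ⟨fun _ => ⟨SimpleGraph.Iso.refl⟩, fun ⟨e⟩ => ⟨e.symm⟩, fun ⟨e⟩ ⟨e'⟩ => ⟨e.trans e'⟩⟩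

/-- `t P n` is the number of the trees with `n` edges in the class `P`, up to isomorphism. -/
noncomputable def t (P : ∀ V : Type, SimpleGraph V → Prop) (n : ℕ) : ℕ :=
  Nat.card (Quotient (isoSetoid n fun G => G.IsTree ∧ P _ G))

/-- `g P n` is the number of the trees `T` with `n` edges and `γ(T) = |E(T)|` in the class `P`, up to
isomorphism. -/
noncomputable def g (P : ∀ V : Type, SimpleGraph V → Prop) (n : ℕ) : ℕ :=
  Nat.card (Quotient (isoSetoid n fun G => G.IsTree ∧ P _ G ∧ gamma G = G.edgeSet.ncard))

theorem bound : ∀ ε : ℝ, 0 < ε → ∃ C : ℝ, ∀ P : ∀ V : Type, SimpleGraph V → Prop, BroomClosed P →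
    ∀ m n : ℕ, (1 + ε) * m + C ≤ n → t P m ≤ (n + 1) * g P n :=
  fun _ hε => classes_le hε

theorem compared {P : ∀ V : Type, SimpleGraph V → Prop} (hP : BroomClosed P) :
    Compared (t P) (g P) := by
  apply compared_of
  intro ε hε
  obtain ⟨C, hC⟩ := bound ε hε
  exact ⟨C, hC P hP⟩

theorem g_le_t (P : ∀ V : Type, SimpleGraph V → Prop) (n : ℕ) : g P n ≤ t P n := by
  classical
  apply Nat.card_le_card_of_injective (α := Quotient (isoSetoid n fun G => G.IsTree ∧ P _ G ∧
    gamma G = G.edgeSet.ncard)) (β := Quotient (isoSetoid n fun G => G.IsTree ∧ P _ G))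
    (fun c => Quotient.map' (fun G => ⟨G.1, G.2.1, G.2.2.1⟩) (fun _ _ h => h) c)
  intro c c'
  induction c using Quotient.inductionOn
  induction c' using Quotient.inductionOn
  intro h
  exact Quotient.sound (@Quotient.exact _ (isoSetoid n fun G => G.IsTree ∧ P _ G) _ _ h)

/-- Let `P` be a class of graphs which is closed under isomorphisms, and such that each of its finite
trees has a vertex at which arbitrarily many pendant edges and pendant paths of length two can be
attached (`BroomClosed P`).  Let `t n` be the number of trees in `P` with `n` edges, and `g n` the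
number of those with `γ(T) = |E(T)|`, up to isomorphism.  For every `ε > 0` there is `C`, which does not
depend on `P`, with `t m ≤ (n + 1) * g n` for all `n ≥ (1 + ε) m + C`.  Moreover `g n ≤ t n`, the
`n`-th roots of `t n` and of `g n` have the same upper limit and the same lower limit, and if one of the
two sequences converges, then the other one converges to the same limit.

This applies to the class of all trees, to the trees with a path which has distance at most `k` from
every vertex, for each `k ≥ 2` (lobsters for `k = 2`), to the trees of radius at most `r`, for each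
`r ≥ 2`, and to the trees with at most one vertex of degree `> D`, for each `D ≥ 2`. -/
theorem result :
    (∀ ε : ℝ, 0 < ε → ∃ C : ℝ, ∀ P : ∀ V : Type, SimpleGraph V → Prop, BroomClosed P →
      ∀ m n : ℕ, (1 + ε) * m + C ≤ n → t P m ≤ (n + 1) * g P n) ∧
    (∀ P : ∀ V : Type, SimpleGraph V → Prop, BroomClosed P →
      (∀ n : ℕ, g P n ≤ t P n) ∧
      limsup (fun n : ℕ => (g P n : ENNReal) ^ ((1 : ℝ) / n)) atTop =
        limsup (fun n : ℕ => (t P n : ENNReal) ^ ((1 : ℝ) / n)) atTop ∧
      liminf (fun n : ℕ => (g P n : ENNReal) ^ ((1 : ℝ) / n)) atTop =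
        liminf (fun n : ℕ => (t P n : ENNReal) ^ ((1 : ℝ) / n)) atTop ∧
      ∀ a : ENNReal, Tendsto (fun n : ℕ => (g P n : ENNReal) ^ ((1 : ℝ) / n)) atTop (𝓝 a) ↔
        Tendsto (fun n : ℕ => (t P n : ENNReal) ^ ((1 : ℝ) / n)) atTop (𝓝 a)) ∧
    BroomClosed (fun _ _ => True) ∧
    (∀ k : ℕ, 2 ≤ k → BroomClosed (Near k)) ∧
    (∀ r : ℕ, 2 ≤ r → BroomClosed (Ball r)) ∧
    (∀ D : ℕ, 2 ≤ D → BroomClosed (OneHub D)) :=
  ⟨bound, fun P hP => ⟨g_le_t P, limsup_eq (compared hP) (g_le_t P),
    liminf_eq (compared hP) (g_le_t P), tendsto_iff (compared hP) (g_le_t P)⟩,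
    broomClosed_true, fun _ hk => broomClosed_near hk, fun _ hr => broomClosed_ball hr,
    fun _ hD => broomClosed_oneHub hD⟩

end Pool.Agent.Results.MP_128071_co.GrowthRate
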