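import Pool.Agent.U68.MG.Add

/-!
# The smallest graceful tree containing a given tree: trees with many leaves at one vertex

Let `T` be a finite tree with `m` edges and `k` non-leaves, and `v` a non-leaf such that all non-leaves
have distance at most `h` from `v`.  If `v` is adjacent to at least `8 k min(k, 2 h)` leaves, and if every
other non-leaf is adjacent to at least as many leaves as non-leaves, minus one, then `T` is graceful.  The
numbers of the leaves at the other vertices are arbitrary otherwise.  Without the last condition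
`γ(T) ≤ m + k - 2`.  In particular this holds for every tree with `k` non-leaves and at least
`8 k^3 + k - 1` edges.

Proof.  Give `v` the label `0` and the other non-leaves `y` the labels `2 H - 2 f y`, `H` half the number of
the edges, where the numbers `f y` increase away from `v` and have distinct differences along the edges.
The labels of the children of `y` are chosen symmetric about half the label of `y`: the non-leaf child `w`
is paired with a leaf labelled `2 (f w - f y)`, the other leaves are paired with each other, and one of them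
gets half the label of `y` if their number is odd.  Then the differences of the edges which do not contain
`v` are the labels of their lower ends, in another order, and the leaves at `v` get all the other labels.
-/

set_option autoImplicit false

namespace Pool.Agent.Results.MP_128071_co.ManyLeavesAtOneVertex

open Pool.Agent.W322.GT (addLeaves)

/-- A graph with `m` edges is graceful if there is an injective map `f` of the vertices to
`{0, 1, …, m}` such that the edge labels `|f u - f v|` are exactly `1, …, m`. -/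
def Graceful {V : Type} (T : SimpleGraph V) : Prop :=
  ∃ f : V → ℕ, Function.Injective f ∧ (∀ v, f v ≤ T.edgeSet.ncard) ∧
    {d : ℕ | ∃ u v : V, T.Adj u v ∧ d = Int.natAbs ((f u : ℤ) - (f v : ℤ))} =
      Set.Icc 1 T.edgeSet.ncard

/-- The numbers of edges of the finite graceful trees which have a subgraph isomorphic to `T`. -/
def gracefulSizes {V : Type} (T : SimpleGraph V) : Set ℕ :=
  {k | ∃ (W : Type) (_ : Fintype W) (T' : SimpleGraph W),
    T'.IsTree ∧ Graceful T' ∧ T.IsContained T' ∧ T'.edgeSet.ncard = k}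

/-- `γ(T)`: the least number of edges of a graceful tree which has a subgraph isomorphic to `T`. -/
noncomputable def gamma {V : Type} (T : SimpleGraph V) : ℕ := sInf (gracefulSizes T)

/-- `x` is a non-leaf: its degree is at least two. -/
def NonLeaf {V : Type} (T : SimpleGraph V) (x : V) : Prop := 2 ≤ (T.neighborSet x).ncard

/-- the number of the leaves adjacent to `x` -/
noncomputable def leavesAt {V : Type} (T : SimpleGraph V) (x : V) : ℕ :=
  {y : V | T.Adj x y ∧ (T.neighborSet y).ncard = 1}.ncard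

/-- the number of the non-leaves adjacent to `x` -/
noncomputable def nonLeavesAt {V : Type} (T : SimpleGraph V) (x : V) : ℕ :=
  {y : V | T.Adj x y ∧ NonLeaf T y}.ncard

/-- `x` is adjacent to at least as many leaves as non-leaves, minus one. -/
def EnoughLeaves {V : Type} (T : SimpleGraph V) (x : V) : Prop :=
  nonLeavesAt T x ≤ leavesAt T x + 1

/-- All non-leaves have distance at most `h` from `v`. -/
def Within {V : Type} (T : SimpleGraph V) (v : V) (h : ℕ) : Prop := ∀ x, NonLeaf T x → T.dist v x ≤ h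

theorem le_of_mem {V : Type} {T : SimpleGraph V} {k : ℕ}
    (hk : k ∈ gracefulSizes T) : T.edgeSet.ncard ≤ k := by
  classical
  obtain ⟨W, _, T', _, _, ⟨φ⟩, rfl⟩ := hk
  have hinj : Function.Injective φ := φ.injective
  have h1 : Sym2.map φ '' T.edgeSet ⊆ T'.edgeSet := by
    rintro _ ⟨e, he, rfl⟩
    induction e using Sym2.ind with
    | _ x y =>
      rw [Sym2.map_mk, SimpleGraph.mem_edgeSet]
      exact φ.toHom.map_adj ((SimpleGraph.mem_edgeSet T).1 he)
  calc T.edgeSet.ncard = (Sym2.map φ '' T.edgeSet).ncard :=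
        (Set.ncard_image_of_injective _ (Sym2.map.injective hinj)).symm
    _ ≤ T'.edgeSet.ncard := Set.ncard_le_ncard h1 (Set.toFinite _)

/-- `addLeaves T κ` is the tree `T` with `κ x` new vertices joined to each vertex `x`. -/
theorem added {V : Type} [Fintype V] {T : SimpleGraph V} (hT : T.IsTree) (k : ℕ)
    (hk : {x : V | NonLeaf T x}.ncard = k) (v : V) (h : ℕ) (hv2 : NonLeaf T v)
    (hh : Within T v h) (κ : V → ℕ) (hκ0 : ∀ y, ¬ NonLeaf T y → κ y = 0)
    (hv : 8 * k * min k (2 * h) ≤ leavesAt T v + κ v)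
    (hκ : ∀ y, y ≠ v → NonLeaf T y → nonLeavesAt T y ≤ leavesAt T y + κ y + 1) :
    (addLeaves T κ).IsTree ∧ Graceful (addLeaves T κ) ∧
      (addLeaves T κ).edgeSet.ncard = T.edgeSet.ncard + ∑ x, κ x := by
  obtain ⟨h1, h2, F, h3, h4, h5⟩ := Pool.Agent.U68.MG.main hT v k h hv2 hk hh κ hv hκ0 hκ
  exact ⟨h1, ⟨F, h3, h4, h5⟩, h2⟩

theorem mem_added {V : Type} [Fintype V] {T : SimpleGraph V} (hT : T.IsTree) (k : ℕ)
    (hk : {x : V | NonLeaf T x}.ncard = k) (v : V) (h : ℕ) (hv2 : NonLeaf T v)
    (hh : Within T v h) (κ : V → ℕ) (hκ0 : ∀ y, ¬ NonLeaf T y → κ y = 0)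
    (hv : 8 * k * min k (2 * h) ≤ leavesAt T v + κ v)
    (hκ : ∀ y, y ≠ v → NonLeaf T y → nonLeavesAt T y ≤ leavesAt T y + κ y + 1) :
    T.edgeSet.ncard + ∑ x, κ x ∈ gracefulSizes T := by
  obtain ⟨h1, h2, h3⟩ := added hT k hk v h hv2 hh κ hκ0 hv hκ
  exact ⟨_, inferInstance, addLeaves T κ, h1, h2, Pool.Agent.W322.GT.addLeaves_contains T κ, h3⟩

/-- the tree itself -/
theorem graceful_self {V : Type} [Fintype V] {T : SimpleGraph V} (hT : T.IsTree) (k : ℕ)
    (hk : {x : V | NonLeaf T x}.ncard = k) (v : V) (h : ℕ) (hv2 : NonLeaf T v)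
    (hh : Within T v h) (hv : 8 * k * min k (2 * h) ≤ leavesAt T v)
    (hκ : ∀ y, y ≠ v → NonLeaf T y → EnoughLeaves T y) : Graceful T := by
  obtain ⟨h1, ⟨F, h3, h4, h5⟩, h2⟩ := added hT k hk v h hv2 hh (fun _ => 0) (fun _ _ => rfl) hv hκ
  have h6 : (addLeaves T (fun _ => 0)).edgeSet.ncard = T.edgeSet.ncard := by
    rw [h2]
    simp
  rw [h6] at h4 h5
  refine ⟨fun x => F (Sum.inl x), fun x y hxy => Sum.inl_injective (h3 hxy), fun x => h4 _, ?_⟩
  rw [← h5]
  ext d
  constructor
  · rintro ⟨a, b, hab, hd⟩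
    exact ⟨Sum.inl a, Sum.inl b, hab, hd⟩
  · rintro ⟨a, b, hab, hd⟩
    match a, b, hab, hd with
    | Sum.inl a, Sum.inl b, hab, hd => exact ⟨a, b, hab, hd⟩
    | Sum.inr p, _, _, _ => exact p.2.elim0
    | Sum.inl _, Sum.inr p, _, _ => exact p.2.elim0

theorem bound {V : Type} [Fintype V] {T : SimpleGraph V} (hT : T.IsTree) (k : ℕ)
    (hk : {x : V | NonLeaf T x}.ncard = k) (v : V) (h : ℕ) (hv2 : NonLeaf T v)
    (hh : Within T v h) :
    gamma T ∈ gracefulSizes T ∧ gamma T ≤ T.edgeSet.ncard + (8 * k * min k (2 * h) - leavesAt T v) +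
      ∑ y ∈ (Set.toFinite {y : V | y ≠ v ∧ NonLeaf T y}).toFinset,
        (nonLeavesAt T y - 1 - leavesAt T y) ∧
    (8 * k * min k (2 * h) ≤ leavesAt T v → gamma T ≤ T.edgeSet.ncard + (k - 2)) := by
  classical
  obtain ⟨N, hN⟩ : ∃ N : Finset V, N = (Set.toFinite {y : V | y ≠ v ∧ NonLeaf T y}).toFinset := ⟨_, rfl⟩
  have hNm : ∀ y, y ∈ N ↔ y ≠ v ∧ NonLeaf T y := by
    intro y
    rw [hN, Set.Finite.mem_toFinset, Set.mem_ofPred_eq]
  rw [← hN]
  have hvN : v ∉ N := by
    rw [hNm]
    simp
  obtain ⟨κ, hκ⟩ : ∃ κ : V → ℕ, ∀ y, κ y = (if y = v then 8 * k * min k (2 * h) - leavesAt T v else 0) +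
    (if y ∈ N then nonLeavesAt T y - 1 - leavesAt T y else 0) := ⟨_, fun _ => rfl⟩
  have hκv : κ v = 8 * k * min k (2 * h) - leavesAt T v := by
    rw [hκ, if_pos rfl, if_neg hvN, Nat.add_zero]
  have hκN : ∀ y ∈ N, κ y = nonLeavesAt T y - 1 - leavesAt T y := by
    intro y hy
    rw [hκ, if_neg ((hNm y).1 hy).1, if_pos hy, Nat.zero_add]
  have hsum : ∑ x, κ x = (8 * k * min k (2 * h) - leavesAt T v) +
      ∑ y ∈ N, (nonLeavesAt T y - 1 - leavesAt T y) := by
    rw [Finset.sum_congr rfl (fun x _ => hκ x), Finset.sum_add_distrib]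
    congr 1
    · simp
    · rw [← Finset.sum_filter]
      congr 1
      ext x
      simp
  have hmem := mem_added hT k hk v h hv2 hh κ (by
      intro y hy
      have h1 : y ≠ v := by
        rintro rfl
        exact hy hv2
      have h2 : y ∉ N := fun h => hy ((hNm y).1 h).2
      rw [hκ, if_neg h1, if_neg h2]) (by rw [hκv]; omega) (by
      intro y hy1 hy2
      rw [hκN y ((hNm y).2 ⟨hy1, hy2⟩)]
      omega)
  rw [hsum] at hmem
  have hle : gamma T ≤ _ := Nat.sInf_le hmem
  refine ⟨Nat.sInf_mem ⟨_, hmem⟩, by omega, ?_⟩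
  intro hv
  have h1 : ∑ y ∈ N, (nonLeavesAt T y - 1) ≤ N.card - 1 :=
    Pool.Agent.U68.MG.sum_nl hT v hv2 N hNm
  have h2 : ∑ y ∈ N, (nonLeavesAt T y - 1 - leavesAt T y) ≤ ∑ y ∈ N, (nonLeavesAt T y - 1) :=
    Finset.sum_le_sum (fun y _ => Nat.sub_le _ _)
  have h3 : N.card + 1 = k := by
    rw [← hk, ← Finset.card_insert_of_notMem hvN, ← Set.ncard_coe_finset]
    congr 1
    ext x
    rw [Finset.mem_coe, Finset.mem_insert, hNm, Set.mem_ofPred_eq]
    constructor
    · rintro (rfl | h1)
      · exact hv2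
      · exact h1.2
    · intro h1
      by_cases hx : x = v
      · exact Or.inl hx
      · exact Or.inr ⟨hx, h1⟩
  omega

/-- Some non-leaf is adjacent to at least the average number of leaves. -/
theorem exists_many {V : Type} [Fintype V] {T : SimpleGraph V} (hT : T.IsTree) (k : ℕ) (hk0 : 0 < k)
    (hk : {x : V | NonLeaf T x}.ncard = k) (a : ℕ) (ha : k * a + k ≤ T.edgeSet.ncard + 1) :
    ∃ v, NonLeaf T v ∧ a ≤ leavesAt T v := by
  classical
  obtain ⟨NL, hNL⟩ : ∃ NL : Finset V, ∀ x, x ∈ NL ↔ NonLeaf T x :=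
    ⟨Finset.univ.filter (fun x => NonLeaf T x), by simp⟩
  have hNLc : NL.card = k := by
    rw [← hk, ← Set.ncard_coe_finset]
    congr 1
    ext x
    rw [Finset.mem_coe, hNL, Set.mem_ofPred_eq]
  obtain ⟨v, hv⟩ : NL.Nonempty := Finset.card_pos.1 (by omega)
  have hv2 : NonLeaf T v := (hNL v).1 hv
  obtain ⟨par, hr, hp2, hd1⟩ := Pool.Agent.U68.MG.exists_rt hT v hv2
  have hcardV : Fintype.card V = T.edgeSet.ncard + 1 := by
    have h1 := hT.card_edgeFinset
    have h2 : T.edgeSet.ncard = T.edgeFinset.card := by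
      rw [← SimpleGraph.coe_edgeFinset, Set.ncard_coe_finset]
    rw [h2]
    omega
  have hLc : (NLᶜ).card = Fintype.card V - k := by rw [Finset.card_compl, hNLc]
  have h1 : (NLᶜ).card = ∑ b ∈ NL, ((NLᶜ).filter (fun x => par x = b)).card := by
    apply Finset.card_eq_sum_card_fiberwise
    intro x hx
    rw [Finset.mem_coe, Finset.mem_compl] at hx
    rw [Finset.mem_coe, hNL]
    exact hp2 x (fun he => hx (by rw [he]; exact hv))
  have h2 : ∀ y ∈ NL, ((NLᶜ).filter (fun x => par x = y)).card ≤ leavesAt T y := by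
    intro y _
    unfold leavesAt
    rw [← Set.ncard_coe_finset]
    apply Set.ncard_le_ncard _ (Set.toFinite _)
    intro x hx
    rw [Finset.mem_coe, Finset.mem_filter, Finset.mem_compl, hNL] at hx
    obtain ⟨h3, rfl⟩ := hx
    have hxv : x ≠ v := by
      rintro rfl
      exact h3 hv2
    have h4 := hr.adj x hxv
    refine ⟨h4.symm, ?_⟩
    have h5 : 0 < (T.neighborSet x).ncard := (Set.ncard_pos (Set.toFinite _)).2 ⟨par x, h4⟩
    have h6 : ¬ 2 ≤ (T.neighborSet x).ncard := h3
    omega
  have h3 : ∑ b ∈ NL, a ≤ ∑ b ∈ NL, leavesAt T b := by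
    refine le_trans ?_ (le_trans (le_of_eq h1) (Finset.sum_le_sum h2))
    rw [Finset.sum_const, smul_eq_mul, hNLc, hLc, hcardV]
    omega
  obtain ⟨y, hy, hy2⟩ := Finset.exists_le_of_sum_le ⟨v, hv⟩ h3
  exact ⟨y, (hNL y).1 hy, hy2⟩

/-- Let `T` be a finite tree with `m` edges and `k ≥ 1` non-leaves.

1. `γ(T)` is attained and `γ(T) ≥ m`.
2. If `v` is a non-leaf and all non-leaves have distance at most `h` from `v`, then `γ(T)` is at most `m`
   plus the missing number of leaves `8 k min(k, 2 h) - (number of leaves at v)` at `v` plus the sum, over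
   the other non-leaves `y`, of the missing numbers (non-leaves at `y`) `- 1 -` (leaves at `y`) of leaves
   (all truncated at `0`).  If no leaves are missing at `v`, then `γ(T) ≤ m + k - 2`, and if no leaves are
   missing at all, then `T` is graceful and `γ(T) = m`.
3. If the distances between non-leaves are at most `D` and `8 k^2 min(k, 2 D) + k ≤ m + 1`, then
   `γ(T) ≤ m + k - 2`, and `T` is graceful with `γ(T) = m` if each non-leaf is adjacent to at least as many
   leaves as non-leaves, minus one.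

(`k - 2` is truncated at `0` as well.) -/
theorem result (V : Type) [Fintype V] (T : SimpleGraph V) (hT : T.IsTree) (k : ℕ) (hk0 : 0 < k)
    (hk : {x : V | NonLeaf T x}.ncard = k) :
    gamma T ∈ gracefulSizes T ∧ T.edgeSet.ncard ≤ gamma T ∧
    (∀ (v : V) (h : ℕ), NonLeaf T v → Within T v h →
      gamma T ≤ T.edgeSet.ncard + (8 * k * min k (2 * h) - leavesAt T v) +
        ∑ y ∈ (Set.toFinite {y : V | y ≠ v ∧ NonLeaf T y}).toFinset,
          (nonLeavesAt T y - 1 - leavesAt T y) ∧
      (8 * k * min k (2 * h) ≤ leavesAt T v → gamma T ≤ T.edgeSet.ncard + (k - 2) ∧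
        ((∀ y, y ≠ v → NonLeaf T y → EnoughLeaves T y) →
          Graceful T ∧ gamma T = T.edgeSet.ncard))) ∧
    (∀ D : ℕ, (∀ v, NonLeaf T v → Within T v D) →
      8 * k ^ 2 * min k (2 * D) + k ≤ T.edgeSet.ncard + 1 →
      gamma T ≤ T.edgeSet.ncard + (k - 2) ∧
        ((∀ y, NonLeaf T y → EnoughLeaves T y) → Graceful T ∧ gamma T = T.edgeSet.ncard)) := by
  classical
  have hself : Graceful T → gamma T = T.edgeSet.ncard := by
    intro hg
    have hm : T.edgeSet.ncard ∈ gracefulSizes T :=
      ⟨V, inferInstance, T, hT, hg, SimpleGraph.IsContained.refl T, rfl⟩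
    exact le_antisymm (Nat.sInf_le hm) (le_of_mem (Nat.sInf_mem ⟨_, hm⟩))
  obtain ⟨v0, hv0, -⟩ := exists_many hT k hk0 hk 0 (by
    rw [Nat.mul_zero, Nat.zero_add, ← hk]
    have h1 := hT.card_edgeFinset
    have h2 : T.edgeSet.ncard = T.edgeFinset.card := by
      rw [← SimpleGraph.coe_edgeFinset, Set.ncard_coe_finset]
    rw [h2, h1]
    exact (Set.ncard_le_card _).trans (le_of_eq (Nat.card_eq_fintype_card)))
  have hmem : gamma T ∈ gracefulSizes T :=
    (bound hT k hk v0 (Finset.univ.sup (T.dist v0)) hv0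
      (fun x _ => Finset.le_sup (f := T.dist v0) (Finset.mem_univ x))).1
  have hB : ∀ (v : V) (h : ℕ), NonLeaf T v → Within T v h →
      gamma T ≤ T.edgeSet.ncard + (8 * k * min k (2 * h) - leavesAt T v) +
        ∑ y ∈ (Set.toFinite {y : V | y ≠ v ∧ NonLeaf T y}).toFinset,
          (nonLeavesAt T y - 1 - leavesAt T y) ∧
      (8 * k * min k (2 * h) ≤ leavesAt T v → gamma T ≤ T.edgeSet.ncard + (k - 2) ∧
        ((∀ y, y ≠ v → NonLeaf T y → EnoughLeaves T y) →
          Graceful T ∧ gamma T = T.edgeSet.ncard)) := by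
    intro v h hv hh
    obtain ⟨_, h1, h2⟩ := bound hT k hk v h hv hh
    refine ⟨h1, fun h3 => ⟨h2 h3, fun h4 => ?_⟩⟩
    have h5 := graceful_self hT k hk v h hv hh h3 h4
    exact ⟨h5, hself h5⟩
  refine ⟨hmem, le_of_mem hmem, hB, ?_⟩
  intro D hD hm
  obtain ⟨v, hv, hv2⟩ := exists_many hT k hk0 hk (8 * k * min k (2 * D)) (by
    refine le_trans (le_of_eq ?_) hm
    ring)
  obtain ⟨_, h1⟩ := hB v D hv (hD v hv)
  obtain ⟨h2, h3⟩ := h1 hv2
  exact ⟨h2, fun h4 => h3 (fun y _ hy => h4 y hy)⟩

end Pool.Agent.Results.MP_128071_co.ManyLeavesAtOneVertex
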