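import Pool.Agent.U148.GT.Total

/-!
# Graceful supertrees of trees with narrow levels

Let `T` be a finite tree with `m` edges and `r` a vertex of `T`.  The level `k` is the set of the
vertices at distance `k` from `r`; a vertex of the level `k` is inner if it has a neighbour in the
level `k + 1`.  The cost of the level `2 k + 2` is its size if the level `2 k + 1` has at least two
inner vertices, and otherwise the number of its own inner vertices minus one (zero if there are none).

`T` is a subtree of a graceful tree with at most `m + C` edges, where `C` is the sum of the costs.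
As `C` is at most `a - 1`, where `a` is the number of vertices at even distance from `r`, the bound is
never worse than the bound `m + a - 1` of `ThreeHalves.lean`, and it is better as soon as some level
`2 k + 1` has exactly one inner vertex.

Proof.  The vertices are ordered in breadth first order; among the children of a vertex the leaves come
first and the ancestors of a fixed vertex of largest distance come last.  The vertices at even distance
get the labels `0, …, a - 1`, the others are numbered greedily from above such that all differences are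
distinct.  A jump of the greedy numbering is caused by a vertex `i` at even distance for which there is
a vertex at odd distance after the parent of `i` whose parent is before `i`, and every such vertex
causes at most one jump.  The completion to a graceful tree is as in `ThreeHalves.lean`.
-/

set_option autoImplicit false

namespace Pool.Agent.Results.MP_128071_co.NarrowLevels

open Finset Pool.Agent.W58.Gr Pool.Agent.TH5.Tree Pool.Agent.TH49.GT Pool.Agent.U148.GT

/-- A graph with `m` edges is graceful if there is an injective map `f` of the vertices to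
`{0, 1, …, m}` such that the edge labels `|f u - f v|` are exactly `1, …, m`. -/
def Graceful {V : Type} (T : SimpleGraph V) : Prop :=
  ∃ f : V → ℕ, Function.Injective f ∧ (∀ v, f v ≤ T.edgeSet.ncard) ∧
    {d : ℕ | ∃ u v : V, T.Adj u v ∧ d = Int.natAbs ((f u : ℤ) - (f v : ℤ))} =
      Set.Icc 1 T.edgeSet.ncard

/-- The numbers of edges of the finite graceful trees which have a subgraph isomorphic to `T`. -/
def gracefulSizes {V : Type} (T : SimpleGraph V) : Set ℕ :=
  {k | ∃ (W : Type) (_ : Fintype W) (T' : SimpleGraph W),
    T'.IsTree ∧ Graceful T' ∧ T.IsContained T' ∧ T'.edgeSet.ncard = k}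

/-- `γ(T)`: the least number of edges of a graceful tree which has a subgraph isomorphic to `T`. -/
noncomputable def gamma {V : Type} (T : SimpleGraph V) : ℕ := sInf (gracefulSizes T)

/-- the vertices at distance `k` from `r` -/
def level {V : Type} (T : SimpleGraph V) (r : V) (k : ℕ) : Set V := {v | T.dist r v = k}

/-- the vertices at distance `k` from `r` which have a neighbour at distance `k + 1` -/
def inner {V : Type} (T : SimpleGraph V) (r : V) (k : ℕ) : Set V :=
  {v | T.dist r v = k ∧ ∃ w, T.Adj v w ∧ T.dist r w = k + 1}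

open Classical in
/-- The cost of the level `2 k + 2`: the number of its inner vertices minus one (truncated at zero) if
the level `2 k + 1` has at most one inner vertex, and the number of its vertices otherwise. -/
noncomputable def cost {V : Type} (T : SimpleGraph V) (r : V) (k : ℕ) : ℕ :=
  if (inner T r (2 * k + 1)).ncard ≤ 1 then (inner T r (2 * k + 2)).ncard - 1
  else (level T r (2 * k + 2)).ncard

lemma cost_eq {V : Type} (T : SimpleGraph V) (r : V) (k : ℕ) :
    cost T r k = Pool.Agent.U148.GT.cost T r k := rfl

theorem le_of_mem {V : Type} {T : SimpleGraph V} {k : ℕ}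
    (hk : k ∈ gracefulSizes T) : T.edgeSet.ncard ≤ k := by
  classical
  obtain ⟨W, _, T', _, _, ⟨φ⟩, rfl⟩ := hk
  have hinj : Function.Injective φ := φ.injective
  have h1 : Sym2.map φ '' T.edgeSet ⊆ T'.edgeSet := by
    rintro _ ⟨e, he, rfl⟩
    induction e using Sym2.ind with
    | _ x y =>
      rw [Sym2.map_mk, SimpleGraph.mem_edgeSet]
      exact φ.toHom.map_adj ((SimpleGraph.mem_edgeSet T).1 he)
  calc T.edgeSet.ncard = (Sym2.map φ '' T.edgeSet).ncard :=
        (Set.ncard_image_of_injective _ (Sym2.map.injective hinj)).symm
    _ ≤ T'.edgeSet.ncard := Set.ncard_le_ncard h1 (Set.toFinite _)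

lemma card_even {m : ℕ} (B : BFS m) : xx B (m + 1) = (ev B (m + 1)).card + 1 := by
  classical
  unfold xx ev
  have h1 : (range (m + 1)).filter (fun i => B.lev i % 2 = 0) =
      insert 0 ((Icc 1 m).filter (fun i => B.lev i % 2 = 0 ∧ B.π i < m + 1)) := by
    ext i
    rw [mem_insert, mem_filter, mem_filter, mem_range, mem_Icc]
    constructor
    · rintro ⟨h1, h2⟩
      rcases Nat.eq_zero_or_pos i with h0 | h0
      · exact Or.inl h0
      · have h3 := B.lt i h0 (by omega)
        exact Or.inr ⟨⟨h0, by omega⟩, h2, by omega⟩
    · rintro (h1 | ⟨h1, h2, -⟩)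
      · rw [h1, B.lev0]
        exact ⟨by omega, rfl⟩
      · exact ⟨by omega, h2⟩
  rw [h1, card_insert_of_notMem]
  intro h
  rw [mem_filter, mem_Icc] at h
  omega

theorem exists_supertree {V : Type} [Fintype V] {T : SimpleGraph V} (hT : T.IsTree) (r : V) :
    ∃ k ∈ gracefulSizes T, k ≤ T.edgeSet.ncard + ∑ k ∈ range T.edgeSet.ncard, cost T r k := by
  classical
  set m : ℕ := T.edgeSet.ncard with hm
  have hcard : Fintype.card V = m + 1 := by
    have h1 := hT.card_edgeFinset
    rw [hm, Set.ncard_eq_toFinset_card', ← h1]
    rfl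
  rcases Nat.eq_zero_or_pos m with hm0 | hm0
  · -- one vertex
    have hsub : ∀ u v : V, u = v := fun u v => Fintype.card_le_one_iff.1 (by omega) u v
    refine ⟨0, ⟨V, inferInstance, T, hT, ⟨fun _ => 0, fun u v _ => hsub u v, fun _ => Nat.zero_le _,
      ?_⟩, SimpleGraph.IsContained.refl T, hm0⟩, Nat.zero_le _⟩
    ext d
    rw [Set.mem_ofPred_eq, Set.mem_Icc]
    constructor
    · rintro ⟨u, v, huv, -⟩
      exact absurd (hsub u v) huv.ne
    · intro h
      omega
  · -- a deepest vertex
    have : Nonempty V := ⟨r⟩
    obtain ⟨w, hw⟩ := Finite.exists_max (fun v => T.dist r v)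
    obtain ⟨B, e, he, hinj, hsurj, hlev, hadj, hpar, hkey⟩ :=
      exists_bfs_idx hT r hcard (idx_lt hT r w) (idx_inj hT r w)
    obtain ⟨y, hy1, hy2, hy3⟩ := Pool.Agent.U148.GT.exists_greedy B
    have hcr := cr_le_sum hT r w hw B e hsurj hlev hpar hkey
    have h1 := card_split B
    have h2 := card_even B
    obtain ⟨M, hM⟩ : ∃ M, M + 1 = (od B (m + 1)).card + (cr B).card + xx B (m + 1) :=
      ⟨(od B (m + 1)).card + (cr B).card + (ev B (m + 1)).card, by omega⟩
    have hMle : M = m + (cr B).card := by omega
    obtain ⟨g1, g2, g3, g4⟩ := Pool.Agent.U148.GT.greedy_complete B y _ hy1 hy2 hy3 M hM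
    obtain ⟨G, t1, t2, t3, t4⟩ := complete B (FF B y M) M g1 g2 g3 g4
    refine ⟨M, ⟨Fin (M + 1), inferInstance, G, t1, ⟨fun x => (x : ℕ), Fin.val_injective, ?_, ?_⟩, ?_,
      t2⟩, ?_⟩
    · intro v
      rw [t2]
      exact Nat.le_of_lt_succ v.2
    · rw [t2]
      exact t3
    · have hlt : ∀ v : V, FF B y M (e v) < M + 1 := fun v => Nat.lt_succ_of_le (g2 (e v) (he v))
      refine ⟨⟨⟨fun v => ⟨FF B y M (e v), hlt v⟩, ?_⟩, ?_⟩⟩
      · intro u v huv
        rcases hadj u v huv with ⟨h1, h2⟩ | ⟨h1, h2⟩
        · have h3 := t4 (e v) h1 (he v) (hlt v) (by rw [h2]; exact hlt u)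
          have h4 : (⟨FF B y M (B.π (e v)), by rw [h2]; exact hlt u⟩ : Fin (M + 1)) =
            ⟨FF B y M (e u), hlt u⟩ := Fin.ext (by show FF B y M _ = FF B y M _; rw [h2])
          rw [h4] at h3
          exact h3.symm
        · have h3 := t4 (e u) h1 (he u) (hlt u) (by rw [h2]; exact hlt v)
          have h4 : (⟨FF B y M (B.π (e u)), by rw [h2]; exact hlt v⟩ : Fin (M + 1)) =
            ⟨FF B y M (e v), hlt v⟩ := Fin.ext (by show FF B y M _ = FF B y M _; rw [h2])
          rw [h4] at h3
          exact h3
      · intro u v huv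
        have h1 : FF B y M (e u) = FF B y M (e v) := congrArg (fun x : Fin (M + 1) => (x : ℕ)) huv
        exact hinj (g1 _ _ (he u) (he v) h1)
    · rw [hMle]
      exact Nat.add_le_add_left hcr m

/-- Let `T` be a finite tree with `m` edges and `r` a vertex of `T`.  Then `γ(T)` is attained,
`m ≤ γ(T)`, and `γ(T) ≤ m + C`, where `C` is the sum of the costs of the levels `2 k + 2`, `k < m`
(the later levels are empty); and `C` is smaller than the number of vertices at even distance from
`r`. -/
theorem result (V : Type) [Fintype V] (T : SimpleGraph V) (hT : T.IsTree) (r : V) :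
    gamma T ∈ gracefulSizes T ∧ T.edgeSet.ncard ≤ gamma T ∧
      gamma T ≤ T.edgeSet.ncard + ∑ k ∈ range T.edgeSet.ncard, cost T r k ∧
      ∑ k ∈ range T.edgeSet.ncard, cost T r k + 1 ≤ {v | T.dist r v % 2 = 0}.ncard := by
  obtain ⟨k, hk1, hk2⟩ := exists_supertree hT r
  have hmem : gamma T ∈ gracefulSizes T := Nat.sInf_mem ⟨k, hk1⟩
  exact ⟨hmem, le_of_mem hmem, (Nat.sInf_le hk1).trans hk2, sum_cost_lt r _⟩

end Pool.Agent.Results.MP_128071_co.NarrowLevels
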